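import Pool.Agent.X182.PD.K

/-!
# MP_76c07a_co, Q1: the feasibility set `E_W` need not be semi-algebraic.

For `W = {1, 10, 1100}` the set `E_W ⊆ ℝ^3` is not semi-algebraic.

Definitions: `Adm`, `dens`, `feasible` are in `Pool/Agent/X182/PD/A.lean` (admissible densities
`f`, the pattern density `ρ_w(f) = m! ∫_{0 ≤ x_1 < ... < x_m ≤ 1} ∏ g_i(x_i) dx`, the
feasibility set `E_W`), and `IsSemialgebraic` (finite unions of sets
`{x : p(x) = 0, q_1(x) > 0, ..., q_r(x) > 0}`) is in `Pool/Agent/X182/PD/J.lean`.

Idea: on the slice `ρ_1 = 1/2`, `ρ_10 = 2A` the least value `12 B` of `ρ_1100` satisfies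
`A²/(2 log(1/A)) - A³ ≤ B ≤ λ² Λ` with `A ≈ λ Λ`, `Λ ≈ log(1/λ)`, so that the lower boundary
of the slice behaves like `A²/log(1/A)`, and it cannot be contained in the zero set of a nonzero
polynomial.
-/

open Set

namespace Pool.Agent.Results.MP_76c07a_co.FeasibilityNotSemialgebraic

open Pool.Agent.X182.PD

/-- The statement asked about in Q1. -/
def AlwaysSemialgebraic : Prop :=
  ∀ (k : ℕ) (W : Fin k → List Bool), Function.Injective W → (∀ i, W i ≠ []) →
    IsSemialgebraic (feasible W)

/-- For the three words `1, 10, 1100` the feasibility set `E_W ⊆ ℝ^3` is not semi-algebraic; in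
particular the answer to Q1 is negative. -/
theorem result :
    Function.Injective
      (![[true], [true, false], [true, true, false, false]] : Fin 3 → List Bool) ∧
    ¬ IsSemialgebraic
      (feasible (![[true], [true, false], [true, true, false, false]] : Fin 3 → List Bool)) ∧
    ¬ AlwaysSemialgebraic := by
  have hinj : Function.Injective
      (![[true], [true, false], [true, true, false, false]] : Fin 3 → List Bool) := by
    intro i j h
    fin_cases i <;> fin_cases j <;> simp_all
  have hne : ∀ i, (![[true], [true, false], [true, true, false, false]] : Fin 3 → List Bool) i ≠ [] := by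
    intro i
    fin_cases i <;> simp
  exact ⟨hinj, not_semialg, fun h => not_semialg (h 3 _ hinj hne)⟩

end Pool.Agent.Results.MP_76c07a_co.FeasibilityNotSemialgebraic
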